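import Mathlib
import Pool.Agent.Work.MP_6b9f1a_nt.Family

/-!
The level set of the smallest univoque base function at the Komornik-Loreti constant is
uncountable (of the cardinality of the continuum) and uncountably many of its points are
two-sided accumulation points of it.
-/

set_option autoImplicit false

namespace Pool.Agent.Results.MP_6b9f1a_nt.LevelSetUncountable

open Pool.Agent.Work.MP_6b9f1a_nt

/-- `d` is a `q`-expansion of `x` over the alphabet {0,1}:
`x` is the sum of `d_i q^(-(i+1))` over `i = 0, 1, 2, ...`. -/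
def IsExpansion (q x : ℝ) (d : ℕ → Bool) : Prop :=
  HasSum (fun i : ℕ => (if d i then (1 : ℝ) else 0) / q ^ (i + 1)) x

/-- `x` has exactly one `q`-expansion. -/
def HasUniqueExpansion (q x : ℝ) : Prop := ∃! d : ℕ → Bool, IsExpansion q x d

/-- The set of bases `q ∈ (1,2]` for which `x` has exactly one `q`-expansion. -/
def univoqueBases (x : ℝ) : Set ℝ := {q | 1 < q ∧ q ≤ 2 ∧ HasUniqueExpansion q x}

/-- The level set at `q` of the smallest univoque base function: all `x > 0` for which `q` is the
smallest element of the set of univoque bases of `x`. -/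
def levelSet (q : ℝ) : Set ℝ := {x | 0 < x ∧ IsLeast (univoqueBases x) q}

/-- `x` is a two-sided accumulation point of `A`. -/
def IsTwoSidedAcc (A : Set ℝ) (x : ℝ) : Prop :=
  ∀ ε > 0, (Set.Ioo (x - ε) x ∩ A).Nonempty ∧ (Set.Ioo x (x + ε) ∩ A).Nonempty

lemma isExpansion_iff {q : ℝ} (hq : 1 < q) (x : ℝ) (d : ℕ → Bool) :
    IsExpansion q x d ↔ T q d 0 = x := by
  have h : (fun i : ℕ => (if d i then (1 : ℝ) else 0) / q ^ (i + 1))
      = fun i : ℕ => b (d (0 + i)) / q ^ (i + 1) := by
    funext i
    simp [b]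
  unfold IsExpansion
  rw [h, (summ hq d 0).hasSum_iff]
  rfl

lemma unique_iff {q : ℝ} (hq : 1 < q) (x : ℝ) :
    HasUniqueExpansion q x ↔ ∃ c : ℕ → Bool, T q c 0 = x ∧ ∀ c', T q c' 0 = T q c 0 → c' = c := by
  constructor
  · rintro ⟨c, hc, hu⟩
    have h1 := (isExpansion_iff hq x c).1 hc
    refine ⟨c, h1, ?_⟩
    intro c' hc'
    exact hu c' ((isExpansion_iff hq x c').2 (by rw [hc', h1]))
  · rintro ⟨c, hc, hu⟩
    refine ⟨c, (isExpansion_iff hq x c).2 hc, ?_⟩
    intro c' hc'
    exact hu c' (by rw [(isExpansion_iff hq x c').1 hc', hc])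

/-- The Komornik-Loreti constant `q` (the smallest base in (1,2] in which 1 has a unique
expansion) exists, its level set has the cardinality of the continuum, in particular it is
uncountable, and uncountably many points of it are two-sided accumulation points of it. -/
theorem result : ∃ q : ℝ, IsLeast (univoqueBases 1) q ∧
    Cardinal.mk (levelSet q) = Cardinal.continuum ∧
    ¬ (levelSet q).Countable ∧
    ¬ {x | x ∈ levelSet q ∧ IsTwoSidedAcc (levelSet q) x}.Countable := by
  obtain ⟨r, hr1, hr2, hr⟩ := exists_star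
  have hr0 : 1 < r := by linarith
  have hr3 : r ≤ 2 := by linarith
  -- values of good sequences belong to the level set
  have hmem : ∀ f : ℕ → Bool, W r (dig f) 0 ∈ levelSet r := by
    intro f
    refine ⟨?_, ⟨hr0, hr3, ?_⟩, ?_⟩
    · have h1 : dig f 1 = true := (dig_good f).h1 0
      rw [W_succ hr0, h1, b_true]
      have := W_nonneg hr0 (dig f) (0 + 1)
      positivity
    · rw [unique_iff hr0]
      refine ⟨fun i => dig f (i + 1), rfl, ?_⟩
      exact unique_of_cond hr0 _ (fun n _ => good_tail_lt hr0 hr (expo_adm f) (dig_good f) (n + 1)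
        (by omega)) (fun n _ => good_tail_gt hr0 hr (dig_good f) (n + 1) (by omega))
    · rintro q ⟨hq1, hq2, hq⟩
      by_contra hlt
      push Not at hlt
      rw [unique_iff hq1] at hq
      obtain ⟨c, hc, hu⟩ := hq
      exact no_smaller hq1 hq2 hlt hr1 hr2 hr (expo_adm f) (dig_good f) c hu hc
  have hinj : Function.Injective (fun f : ℕ → Bool => (⟨W r (dig f) 0, hmem f⟩ : levelSet r)) := by
    intro f g hfg
    have h1 : W r (dig f) 0 = W r (dig g) 0 := congrArg Subtype.val hfg
    have h2 : (fun i => dig f (i + 1)) = fun i => dig g (i + 1) :=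
      unique_of_cond hr0 _ (fun n _ => good_tail_lt hr0 hr (expo_adm g) (dig_good g) (n + 1)
        (by omega)) (fun n _ => good_tail_gt hr0 hr (dig_good g) (n + 1) (by omega)) _ h1
    apply dig_inj f g
    intro n hn
    have := congrFun h2 (n - 1)
    rwa [show n - 1 + 1 = n by omega] at this
  have hcard : Cardinal.mk (levelSet r) = Cardinal.continuum := by
    apply le_antisymm
    · calc Cardinal.mk (levelSet r) ≤ Cardinal.mk ℝ := Cardinal.mk_set_le _
        _ = Cardinal.continuum := Cardinal.mk_real
    · calc Cardinal.continuum = Cardinal.mk (ℕ → Bool) := by simp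
        _ ≤ Cardinal.mk (levelSet r) := Cardinal.mk_le_of_injective hinj
  have hunc : ¬ (levelSet r).Countable := by
    intro h
    have h1 := Cardinal.mk_le_aleph0_iff.2 h.to_subtype
    rw [hcard] at h1
    exact absurd h1 (not_le.2 Cardinal.aleph0_lt_continuum)
  refine ⟨r, ⟨⟨hr0, hr3, ?_⟩, ?_⟩, hcard, hunc, ?_⟩
  · rw [unique_iff hr0]
    refine ⟨fun i => t (i + 1), hr, ?_⟩
    exact unique_of_cond hr0 _ (fun n _ => tm_tail_lt hr0 hr (n + 1) (by omega))
      (fun n _ => tm_tail_gt hr0 hr (n + 1))
  · rintro q ⟨hq1, hq2, hq⟩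
    by_contra hlt
    push Not at hlt
    rw [unique_iff hq1] at hq
    obtain ⟨c, hc, hu⟩ := hq
    exact kl_min hq1 hq2 hlt hr c hu hc
  · intro h
    apply hunc
    have h2 := h.union (countable_not_twoSided (levelSet r))
    refine h2.mono ?_
    intro x hx
    by_cases hts : TwoSided (levelSet r) x
    · left; exact ⟨hx, hts⟩
    · right; exact ⟨hx, hts⟩

end Pool.Agent.Results.MP_6b9f1a_nt.LevelSetUncountable
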